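import Pool.Agent.H6.FN.TargetsG

set_option autoImplicit false

open scoped Classical

namespace Pool.Agent.H36.FN

open FI

/-- the points which are related to `y` or `z` by a relation `R x`, `x ∈ X`, separating them -/
def Zs {α : Type} (R : α → α → α → Prop) (X : Finset α) (y z : α) : Set α :=
  {w | ∃ x ∈ X, x ≠ y ∧ x ≠ z ∧ ¬ R x y z ∧ (R x y w ∨ R x z w)}

theorem Zs_mono {α : Type} (R : α → α → α → Prop) {X X' : Finset α} (h : X ⊆ X') (y z : α) :
    Zs R X y z ⊆ Zs R X' y z := by
  rintro w ⟨x, hx, h1⟩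
  exact ⟨x, h hx, h1⟩

theorem bad_le {G α : Type} [Group G] [Fintype α] [MulAction G α] (R : α → α → α → Prop) (b : ℕ)
    (hR : IMr G R b) (hC : IMc R b) (Z : Finset α) (j : ℕ) (hZ : Z.card ≤ j) (y : α)
    (S : Finset α) (hS : ∀ x ∈ S, x ≠ y ∧ ∀ w, R x y w → w ∈ Z) : S.card ≤ j * j := by
  by_cases hne : S = ∅
  · rw [hne]
    simp
  obtain ⟨x₀, hx₀⟩ := Finset.nonempty_iff_ne_empty.2 hne
  have hbj : b ≤ j := by
    obtain ⟨h1, h2⟩ := hS x₀ hx₀
    have h3 := hR.crd x₀ y (Ne.symm h1)
    have h4 : {z | R x₀ y z}.ncard ≤ (Z : Set α).ncard :=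
      Set.ncard_le_ncard (fun w hw => h2 w hw) (Set.toFinite _)
    rw [Set.ncard_coe_finset] at h4
    omega
  have hsub : S ⊆ (Z.filter (fun w => w ≠ y)).biUnion
      (fun w => Finset.univ.filter (fun x => R x y w)) := by
    intro x hx
    obtain ⟨h1, h2⟩ := hS x hx
    have h3 := hR.crd x y (Ne.symm h1)
    have h4 : ∃ w, R x y w ∧ w ≠ y := by
      by_contra hcon
      push Not at hcon
      have h5 : {z | R x y z}.ncard ≤ ({y} : Set α).ncard :=
        Set.ncard_le_ncard (fun w hw => hcon w hw) (Set.toFinite _)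
      rw [Set.ncard_singleton] at h5
      have := hR.two
      omega
    obtain ⟨w, hw, hwy⟩ := h4
    rw [Finset.mem_biUnion]
    exact ⟨w, Finset.mem_filter.2 ⟨h2 w hw, hwy⟩, Finset.mem_filter.2 ⟨Finset.mem_univ _, hw⟩⟩
  have hcard : ∀ w ∈ Z.filter (fun w => w ≠ y),
      (Finset.univ.filter (fun x => R x y w)).card ≤ j := by
    intro w hw
    have h1 := hC.eq y w (Ne.symm (Finset.mem_filter.1 hw).2)
    have h2 : {x | R x y w}.ncard = (Finset.univ.filter (fun x => R x y w)).card := by
      rw [← Set.ncard_coe_finset]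
      refine congrArg _ ?_
      ext x
      simp
    omega
  calc S.card ≤ _ := Finset.card_le_card hsub
    _ ≤ (Z.filter (fun w => w ≠ y)).card * j := Finset.card_biUnion_le_card_mul _ _ _ hcard
    _ ≤ j * j := Nat.mul_le_mul_right _ (le_trans (Finset.card_filter_le _ _) hZ)

theorem pf_IM3 (HIT : T_HIT) : T_IM3 := by
  intro G α _ _ _ R b hR hC M hM
  have : Fintype α := Fintype.ofFinite α
  suffices hmain : ∀ j : ℕ, j ≤ M → ∃ X : Finset α,
      (X.card : ℝ) ≤ j * (16 * Real.log (Nat.card α) + 1) ∧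
      ∀ y z, y ≠ z → j ≤ (Zs R X y z).ncard from hmain M le_rfl
  intro j
  induction j with
  | zero =>
    intro _
    exact ⟨∅, by simp, fun y z _ => Nat.zero_le _⟩
  | succ j ih =>
    intro hj
    obtain ⟨X, hX, hXZ⟩ := ih (by omega)
    have hn : 5 ≤ Nat.card α := by nlinarith
    set n := Nat.card α with hn'
    have hnR : (5 : ℝ) ≤ n := by exact_mod_cast hn
    let F : α → α → Finset α := fun y z => Finset.univ.filter
      (fun x => x ≠ y ∧ x ≠ z ∧ ¬ R x y z ∧ ∃ w, w ∉ Zs R X y z ∧ R x y w)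
    let P : α → α → Prop := fun y z => y ≠ z ∧ (Zs R X y z).ncard < j + 1
    have hF : ∀ y z, P y z → ((n : ℝ) - 1) / 4 ≤ ((F y z).card : ℝ) := by
      rintro y z ⟨hyz, hlt⟩
      have h1 := hC.sep y z hyz
      let A : Finset α := Finset.univ.filter (fun x => x ≠ y ∧ x ≠ z ∧ ¬ R x y z)
      have hA : {x | x ≠ y ∧ x ≠ z ∧ ¬ R x y z}.ncard = A.card := by
        rw [← Set.ncard_coe_finset]
        refine congrArg _ ?_
        ext x
        simp [A]
      have hbad : (A.filter (fun x => ¬ ∃ w, w ∉ Zs R X y z ∧ R x y w)).card ≤ j * j := by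
        apply bad_le (G := G) R b hR hC (Zs R X y z).toFinite.toFinset j ?_ y
        · intro x hx
          rw [Finset.mem_filter] at hx
          obtain ⟨hx1, hx2⟩ := hx
          refine ⟨(Finset.mem_filter.1 hx1).2.1, ?_⟩
          intro w hw
          by_contra hcon
          rw [Set.Finite.mem_toFinset] at hcon
          exact hx2 ⟨w, hcon, hw⟩
        · rw [← Set.ncard_eq_toFinset_card]
          omega
      have hsplit : A.card = (F y z).card +
          (A.filter (fun x => ¬ ∃ w, w ∉ Zs R X y z ∧ R x y w)).card := by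
        rw [← Finset.card_filter_add_card_filter_not (s := A)
          (fun x => ∃ w, w ∉ Zs R X y z ∧ R x y w)]
        congr 2
        ext x
        simp only [A, F, Finset.mem_filter, Finset.mem_univ, true_and]
        tauto
      have h2 : 4 * (j * j) + 4 * (2 * j + 1) + 1 ≤ n := by
        have : (j + 1) ^ 2 ≤ M ^ 2 := Nat.pow_le_pow_left hj 2
        nlinarith
      have h3 : n ≤ 4 * (F y z).card + 1 := by
        rw [hA] at h1
        omega
      have h4 : (n : ℝ) ≤ 4 * ((F y z).card : ℝ) + 1 := by exact_mod_cast h3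
      linarith
    obtain ⟨B, hB1, hB2⟩ := HIT α F P (((n : ℝ) - 1) / 4) (by linarith) hF
    refine ⟨X ∪ B, ?_, ?_⟩
    · have h1 : ((X ∪ B).card : ℝ) ≤ X.card + B.card := by
        exact_mod_cast Finset.card_union_le X B
      have hlog : 0 ≤ Real.log n := Real.log_nonneg (by linarith)
      have h2 : 2 * (n : ℝ) / (((n : ℝ) - 1) / 4) ≤ 16 := by
        rw [div_le_iff₀ (by linarith)]
        linarith
      have h3 : 2 * (n : ℝ) / (((n : ℝ) - 1) / 4) * Real.log n ≤ 16 * Real.log n :=
        mul_le_mul_of_nonneg_right h2 hlog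
      rw [← hn'] at hB2
      push_cast
      linarith
    · intro y z hyz
      by_cases h : (Zs R X y z).ncard < j + 1
      · obtain ⟨x, hxB, hxF⟩ := hB1 y z ⟨hyz, h⟩
        simp only [F, Finset.mem_filter, Finset.mem_univ, true_and] at hxF
        obtain ⟨h1, h2, h3, w, h4, h5⟩ := hxF
        have hss : Zs R X y z ⊂ Zs R (X ∪ B) y z := by
          rw [Set.ssubset_iff_of_subset (Zs_mono R Finset.subset_union_left y z)]
          exact ⟨w, ⟨x, Finset.mem_union_right _ hxB, h1, h2, h3, Or.inl h5⟩, h4⟩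
        have h6 := Set.ncard_lt_ncard hss (Set.toFinite _)
        have h7 := hXZ y z hyz
        omega
      · have h1 := Set.ncard_le_ncard (Zs_mono R (Finset.subset_union_left (s₂ := B)) y z)
          (Set.toFinite (Zs R (X ∪ B) y z))
        omega

end Pool.Agent.H36.FN
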