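import Pool.Agent.H6.FN.TargetsG

set_option autoImplicit false

open scoped Classical Pointwise

namespace Pool.Agent.H36.FN

open FI MulAction

/-- isomorphic groups have the same number of conjugacy classes -/
theorem kc_congr {G H : Type} [Group G] [Group H] (e : G ≃* H) : kc G = kc H := by
  apply Nat.card_congr
  refine ⟨ConjClasses.map e.toMonoidHom, ConjClasses.map e.symm.toMonoidHom, ?_, ?_⟩
  · intro c
    obtain ⟨g, rfl⟩ := ConjClasses.exists_rep c
    change ConjClasses.mk (e.symm (e g)) = ConjClasses.mk g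
    rw [e.symm_apply_apply]
  · intro c
    obtain ⟨g, rfl⟩ := ConjClasses.exists_rep c
    change ConjClasses.mk (e (e.symm g)) = ConjClasses.mk g
    rw [e.apply_symm_apply]

/-- a transitive group has one orbit -/
theorem norb_one {α : Type} [Nonempty α] (T : Subgroup (Equiv.Perm α))
    (hT : IsPretransitive T α) : norb α T = 1 := by
  rw [Nat.card_eq_one_iff_unique]
  refine ⟨⟨?_⟩, ⟨Quotient.mk _ (Classical.arbitrary α)⟩⟩
  intro a b
  induction a using Quotient.inductionOn with
  | h x =>
    induction b using Quotient.inductionOn with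
    | h y =>
      apply Quotient.sound
      obtain ⟨g, hg⟩ := hT.exists_smul_eq y x
      exact ⟨g, hg⟩

theorem norb_le {α : Type} [Finite α] (T : Subgroup (Equiv.Perm α)) : norb α T ≤ Nat.card α :=
  Nat.card_le_card_of_surjective (Quotient.mk _) Quotient.mk_surjective

/-- the block containing a point -/
theorem exists_blk {α : Type} (T : Subgroup (Equiv.Perm α)) (hT : IsPretransitive T α)
    {B : Set α} {b : α} (hb : b ∈ B) (x : α) : ∃ D : orbit T B, x ∈ (D : Set α) := by
  obtain ⟨g, hg⟩ := hT.exists_smul_eq b x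
  exact ⟨⟨g • B, g, rfl⟩, by rw [← hg]; exact Set.smul_mem_smul_set hb⟩

theorem blk_unique {α : Type} (T : Subgroup (Equiv.Perm α)) {B : Set α} (hB : IsBlock T B)
    (D D' : orbit T B) (x : α) (hx : x ∈ (D : Set α)) (hx' : x ∈ (D' : Set α)) : D = D' := by
  obtain ⟨D, g, rfl⟩ := D
  obtain ⟨D', g', rfl⟩ := D'
  apply Subtype.ext
  by_contra hne
  exact Set.disjoint_left.1 (hB hne) hx hx'

theorem pf_KPB (NAG : T_NAG) : T_KPB := by
  intro C hC α _ h1 h2 T hT hnp
  -- a block
  have hblk : ∃ B : Set α, IsBlock T B ∧ ¬ B.Subsingleton ∧ B ≠ Set.univ := by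
    by_contra hcon
    push Not at hcon
    apply hnp
    refine { toIsPretransitive := hT, isTrivialBlock_of_isBlock := ?_ }
    intro B hB
    by_cases hs : B.Subsingleton
    · exact Or.inl hs
    · exact Or.inr (hcon B hB (Set.not_subsingleton_iff.1 hs))
  obtain ⟨B, hB, hBs, hBu⟩ := hblk
  obtain ⟨b, hb, b', hb', hbb⟩ := Set.not_subsingleton_iff.1 hBs
  have : Nonempty α := ⟨b⟩
  have hfin : Finite (orbit T B) := Set.Finite.to_subtype (Set.toFinite _)
  -- the map to the block system
  let c : α → orbit T B := fun x => Classical.choose (exists_blk T hT hb x)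
  have hc : ∀ x, x ∈ (c x : Set α) := fun x => Classical.choose_spec (exists_blk T hT hb x)
  have hcu : ∀ (x : α) (D : orbit T B), x ∈ (D : Set α) → c x = D := fun x D hx =>
    blk_unique T hB _ _ x (hc x) hx
  let B₀ : orbit T B := ⟨B, 1, one_smul _ _⟩
  have hcs : Function.Surjective c := by
    rintro ⟨D, g, rfl⟩
    exact ⟨g • b, hcu _ _ (Set.smul_mem_smul_set hb)⟩
  have hcb : c b = B₀ := hcu b B₀ hb
  have hcb' : c b' = B₀ := hcu b' B₀ hb'
  have hr1 : Nat.card (orbit T B) < Nat.card α := by
    refine lt_of_le_of_ne (Nat.card_le_card_of_surjective c hcs) ?_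
    intro heq
    have hbij : Function.Bijective c := by
      have := Fintype.ofFinite α
      have := Fintype.ofFinite (orbit T B)
      rw [Nat.card_eq_fintype_card, Nat.card_eq_fintype_card] at heq
      exact (Fintype.bijective_iff_surjective_and_card c).2 ⟨hcs, heq.symm⟩
    exact hbb (hbij.1 (hcb.trans hcb'.symm))
  have hr2 : 2 ≤ Nat.card (orbit T B) := by
    obtain ⟨x, hx⟩ := (Set.ne_univ_iff_exists_notMem B).1 hBu
    have hne : c x ≠ B₀ := by
      intro h
      have := hc x
      rw [h] at this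
      exact hx this
    have : Nontrivial (orbit T B) := ⟨⟨c x, B₀, hne⟩⟩
    exact Finite.one_lt_card
  -- the action on the blocks
  let ρ : T →* Equiv.Perm (orbit T B) := MulAction.toPermHom T (orbit T B)
  have hρ : ∀ (t : T) (D : orbit T B), ρ t D = t • D := fun t D => rfl
  have hT1 : IsPretransitive ρ.range (orbit T B) := by
    refine ⟨fun D D' => ?_⟩
    obtain ⟨g, hg⟩ := MulAction.exists_smul_eq T D D'
    exact ⟨⟨ρ g, g, rfl⟩, hg⟩
  have hne : Nonempty (orbit T B) := ⟨B₀⟩
  have hk1 := h1 (orbit T B) ρ.range hr1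
  have hn1 := norb_one ρ.range hT1
  unfold PB at hk1
  rw [hn1] at hk1
  -- the kernel
  let K' : Subgroup (Equiv.Perm α) := ρ.ker.map T.subtype
  have hinv : ∀ (k : K') (x : α), c (k • x) = c x := by
    rintro ⟨k, t, ht, rfl⟩ x
    apply hcu
    have h3 : t • c x = c x := by
      rw [← hρ]
      have h4 : ρ t = 1 := MonoidHom.mem_ker.1 ht
      rw [h4]
      rfl
    have h5 : (t • c x : orbit T B) = c x := h3
    rw [← h5]
    change (t : T) • x ∈ (t • c x : Set α)
    exact Set.smul_mem_smul_set (hc x)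
  have hnK : Nat.card (orbit T B) ≤ norb α K' := by
    let q : orbitRel.Quotient K' α → orbit T B := Quotient.lift c (by
      rintro x y ⟨k, hk⟩
      rw [← hk]
      exact hinv k y)
    refine Nat.card_le_card_of_surjective q ?_
    intro D
    obtain ⟨x, hx⟩ := hcs D
    exact ⟨Quotient.mk _ x, hx⟩
  have hk2 := h2 K' (le_trans hr2 hnK)
  unfold PB at hk2
  -- the bound
  have hk3 := NAG T ρ.ker
  have e1 : kc ρ.ker = kc K' :=
    kc_congr (ρ.ker.equivMapOfInjective T.subtype T.subtype_injective)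
  have e2 : kc (T ⧸ ρ.ker) = kc ρ.range := kc_congr (QuotientGroup.quotientKerEquivRange ρ)
  rw [e1, e2] at hk3
  have hn2 := norb_one T hT
  have hn3 := norb_le K'
  unfold PB
  rw [hn2]
  have hC0 : (0 : ℝ) ≤ C := by linarith
  calc (kc T : ℝ) ≤ (kc K' : ℝ) * kc ρ.range := by exact_mod_cast hk3
    _ ≤ C ^ (Nat.card α - norb α K') * C ^ (Nat.card (orbit T B) - 1) :=
        mul_le_mul hk2 hk1 (Nat.cast_nonneg _) (pow_nonneg hC0 _)
    _ = C ^ (Nat.card α - norb α K' + (Nat.card (orbit T B) - 1)) := (pow_add _ _ _).symm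
    _ ≤ C ^ (Nat.card α - 1) := pow_le_pow_right₀ hC (by omega)

end Pool.Agent.H36.FN
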