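import Pool.Agent.H36.FN.LB6

/-!
MP_6a7a6f_gt, exact value of the filling radius of the complex projective spaces of dimensions 3
and 6, board fnc_modules, row LB4: four labels on small sets with monopoles but without heavy
pyramids.
-/

namespace Pool.Agent.H36.FN

open Pool.Agent.H59 Pool.Agent.H48.FR Pool.Agent.H58.FL Pool.Agent.H30.FA Pool.Agent.H58.FM
open Pool.Agent.H58.FN

/-- LB4: four labels on small sets with monopoles but without heavy pyramids. -/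
theorem pf_LB4 (hPBS : T_PBS) (hCLQ : T_CLQ) : T_LB4 := by
  classical
  intro E J X _ _ _ κ δ x t σ S hne hS hHP
  obtain ⟨h1, -, ⟨c₆, hc₆⟩, -, -, -⟩ := hCLQ E J X κ δ x t σ S hS.1
  obtain ⟨-, -, -, -, h5, -, -, h8⟩ := hPBS
  have hδ := σ.d_pos
  have hlab : ∀ i ∈ {j | ∃ f ∈ S, 14 * δ < t f j}, ∀ j ∈ {j | ∃ f ∈ S, 14 * δ < t f j},
      ∀ k ∈ {j | ∃ f ∈ S, 14 * δ < t f j}, ∀ l ∈ {j | ∃ f ∈ S, 14 * δ < t f j},
      mn (x i) (x j) (x k) (x l) = pen (c₆ i) (c₆ j) (c₆ k) (c₆ l) := by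
    have h2 : ∀ i ∈ {j | ∃ f ∈ S, 14 * δ < t f j}, ∃ f ∈ S, δ < t f i := by
      rintro i ⟨f, hf, hi⟩
      exact ⟨f, hf, by linarith⟩
    intro i hi j hj k hk l hl
    exact hc₆ i j k l (h2 i hi) (h2 j hj) (h2 k hk) (h2 l hl)
  obtain ⟨f₀, hf₀⟩ := hne
  -- a label is missing
  have hmiss : ∃ e : Fin 6, ∀ j ∈ {j | ∃ f ∈ S, 14 * δ < t f j}, c₆ j ≠ e := by
    by_contra hcon
    push Not at hcon
    choose p hp hpe using hcon
    refine hHP f₀ hf₀ ⟨p, fun i j k l => ?_, fun i => ?_⟩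
    · rw [hlab _ (hp i) _ (hp j) _ (hp k) _ (hp l), hpe, hpe, hpe, hpe]
    · obtain ⟨f, hf, hi⟩ := hp i
      have := h1 f hf f₀ hf₀ (p i)
      linarith
  obtain ⟨e, he⟩ := hmiss
  obtain ⟨g, hg⟩ := h5 e
  have hlab4 : ∀ i ∈ {j | ∃ f ∈ S, 14 * δ < t f j}, ∀ j ∈ {j | ∃ f ∈ S, 14 * δ < t f j},
      ∀ k ∈ {j | ∃ f ∈ S, 14 * δ < t f j}, ∀ l ∈ {j | ∃ f ∈ S, 14 * δ < t f j},
      mn (x i) (x j) (x k) (x l) = sg4 (g (c₆ i)) (g (c₆ j)) (g (c₆ k)) (g (c₆ l)) := by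
    intro i hi j hj k hk l hl
    rw [hlab i hi j hj k hk l hl]
    exact congrArg Int.cast (hg _ _ _ _ (he i hi) (he j hj) (he k hk) (he l hl))
  refine ⟨fun j => g (c₆ j), {j | ∃ f ∈ S, 14 * δ < t f j}, fun j => Iff.rfl, hlab4,
    fun f hf => ?_⟩
  obtain ⟨hm, hw, hmax⟩ := σ.q_max f (hS.2 f hf)
  have hqH : ∀ i, σ.q f i ∈ {j | ∃ f ∈ S, 14 * δ < t f j} := fun i =>
    ⟨f, hf, by linarith [hw i]⟩
  have hsg : sg4 (g (c₆ (σ.q f 0))) (g (c₆ (σ.q f 1))) (g (c₆ (σ.q f 2))) (g (c₆ (σ.q f 3))) =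
      1 := by
    have h2 := (hlab4 _ (hqH 0) _ (hqH 1) _ (hqH 2) _ (hqH 3)).symm.trans hm
    exact_mod_cast h2
  refine ⟨hqH, ⟨f, hf, by linarith [σ.d_small f]⟩, h8 _ ?_, fun i j hj hij => ?_⟩
  · show sg4 (g (c₆ (σ.q f 0))) (g (c₆ (σ.q f 1))) (g (c₆ (σ.q f 2))) (g (c₆ (σ.q f 3))) ≠ 0
    rw [hsg]
    exact one_ne_zero
  · rcases le_or_gt (t f j) (20 * δ) with h | h
    · exact h.trans (hw i).le
    · refine sum_upd (t f) (σ.q f) i j (hmax _ ?_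
        (upd_all (fun j => 20 * δ < t f j) _ _ _ hw h))
      have hu := upd_lab (fun j => g (c₆ j)) (σ.q f) i j hij
      rw [hlab4 _ (upd_all _ _ _ _ hqH hj 0) _ (upd_all _ _ _ _ hqH hj 1) _
        (upd_all _ _ _ _ hqH hj 2) _ (upd_all _ _ _ _ hqH hj 3)]
      have h3 := (congrArg₂ (fun u v => sg4 u v (g (c₆ (Function.update (σ.q f) i j 2)))
        (g (c₆ (Function.update (σ.q f) i j 3)))) (hu 0) (hu 1)).trans
        ((congrArg₂ (fun u v => sg4 (g (c₆ (σ.q f 0))) (g (c₆ (σ.q f 1))) u v) (hu 2)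
          (hu 3)).trans hsg)
      exact_mod_cast h3

end Pool.Agent.H36.FN
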