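import Pool.Agent.H58.FN.Targets

/-!
MP_6a7a6f_gt, exact value of the filling radius of the complex projective spaces of dimensions 3
and 6, board fnc_modules, row LB6: six labels on small sets with pyramids.
-/

namespace Pool.Agent.H36.FN

open Pool.Agent.H59 Pool.Agent.H48.FR Pool.Agent.H58.FL Pool.Agent.H30.FA Pool.Agent.H58.FM
open Pool.Agent.H58.FN

/-- comparison of the weights after the change of one point -/
theorem sum_upd {n : ℕ} {J : Type} (w : J → ℝ) (p : Fin n → J) (i : Fin n) (j : J)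
    (h : ∑ a, w (Function.update p i j a) ≤ ∑ a, w (p a)) : w j ≤ w (p i) := by
  have h1 : ∑ a, (w (Function.update p i j a) - w (p a)) = w j - w (p i) := by
    rw [Finset.sum_eq_single i]
    · rw [Function.update_self]
    · intro a _ ha
      rw [Function.update_of_ne ha, sub_self]
    · intro hi
      exact absurd (Finset.mem_univ i) hi
  rw [Finset.sum_sub_distrib] at h1
  linarith

/-- a property of all points after the change of one point -/
theorem upd_all {n : ℕ} {J : Type} (P : J → Prop) (p : Fin n → J) (i : Fin n) (j : J)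
    (hp : ∀ a, P (p a)) (hj : P j) (a : Fin n) : P (Function.update p i j a) := by
  by_cases h : a = i
  · rw [h, Function.update_self]
    exact hj
  · rw [Function.update_of_ne h]
    exact hp a

/-- the labels after the change of one point -/
theorem upd_lab {n : ℕ} {J L : Type} (c : J → L) (p : Fin n → J) (i : Fin n) (j : J)
    (hj : c j = c (p i)) (a : Fin n) : c (Function.update p i j a) = c (p a) := by
  by_cases h : a = i
  · rw [h, Function.update_self, hj]
  · rw [Function.update_of_ne h]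

/-- LB6: six labels on small sets with pyramids. -/
theorem pf_LB6 (hPBS : T_PBS) (hCLQ : T_CLQ) : T_LB6 := by
  intro E J X _ _ _ κ δ x t σ S _ hS hHP
  obtain ⟨-, -, ⟨c, hc⟩, -, -, -⟩ := hCLQ E J X κ δ x t σ S hS
  have hδ := σ.d_pos
  have hlab : ∀ i ∈ {j | ∃ f ∈ S, 2 * δ < t f j}, ∀ j ∈ {j | ∃ f ∈ S, 2 * δ < t f j},
      ∀ k ∈ {j | ∃ f ∈ S, 2 * δ < t f j}, ∀ l ∈ {j | ∃ f ∈ S, 2 * δ < t f j},
      mn (x i) (x j) (x k) (x l) = pen (c i) (c j) (c k) (c l) := by
    have h1 : ∀ i ∈ {j | ∃ f ∈ S, 2 * δ < t f j}, ∃ f ∈ S, δ < t f i := by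
      rintro i ⟨f, hf, hi⟩
      exact ⟨f, hf, by linarith⟩
    intro i hi j hj k hk l hl
    exact hc i j k l (h1 i hi) (h1 j hj) (h1 k hk) (h1 l hl)
  refine ⟨c, {j | ∃ f ∈ S, 2 * δ < t f j}, fun j => Iff.rfl, hlab, fun f hf => ?_⟩
  obtain ⟨hP, hw, hmax⟩ := σ.p_max f (hHP f hf)
  have hpH : ∀ i, σ.p f i ∈ {j | ∃ f ∈ S, 2 * δ < t f j} := fun i =>
    ⟨f, hf, by linarith [hw i]⟩
  have hpen : ∀ i j k l, pen i j k l =
      pen (c (σ.p f i)) (c (σ.p f j)) (c (σ.p f k)) (c (σ.p f l)) := by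
    intro i j k l
    have h1 := (hP i j k l).symm.trans (hlab _ (hpH i) _ (hpH j) _ (hpH k) _ (hpH l))
    exact_mod_cast h1
  obtain ⟨-, -, -, -, -, -, h7, -⟩ := hPBS
  obtain ⟨hb1, hb2⟩ := h7 (c ∘ σ.p f) hpen
  refine ⟨hpH, ⟨f, hf, by linarith [σ.d_small f]⟩, hb1, hb2, fun i j hj hij => ?_⟩
  rcases le_or_gt (t f j) (4 * δ) with h | h
  · exact h.trans (hw i).le
  · refine sum_upd (t f) (σ.p f) i j (hmax _ (fun a b d e => ?_)
      (upd_all (fun j => 4 * δ < t f j) _ _ _ hw h))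
    rw [hlab _ (upd_all _ _ _ _ hpH hj a) _ (upd_all _ _ _ _ hpH hj b) _
      (upd_all _ _ _ _ hpH hj d) _ (upd_all _ _ _ _ hpH hj e), upd_lab c _ _ _ hij,
      upd_lab c _ _ _ hij, upd_lab c _ _ _ hij, upd_lab c _ _ _ hij]
    exact congrArg Int.cast (hpen a b d e).symm

end Pool.Agent.H36.FN
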