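import Pool.Agent.H6.FN.Targets
import Pool.Agent.H6.FC.Lem

set_option autoImplicit false

open scoped Classical

namespace Pool.Agent.H36.FN

open FI

/-- a minimal normal subgroup inside a nontrivial normal subgroup -/
theorem exists_minN {Y : Type} [Group Y] [Finite Y] (V : Subgroup Y) (hV : V.Normal)
    (hne : V ≠ ⊥) : ∃ L : Subgroup Y, MinN L ∧ L ≤ V := by
  obtain ⟨L, ⟨hL1, hL2, hL3⟩, hmin⟩ := (wellFounded_lt (α := Subgroup Y)).has_min
    {M : Subgroup Y | M.Normal ∧ M ≤ V ∧ M ≠ ⊥} ⟨V, hV, le_refl _, hne⟩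
  refine ⟨L, ⟨hL1, hL3, ?_⟩, hL2⟩
  intro M hM hML
  by_contra hcon
  rw [not_or] at hcon
  exact hmin M ⟨hM, hML.trans hL2, hcon.1⟩ (lt_of_le_of_ne hML hcon.2)

theorem pf_SLN (SOL : T_SOL) : T_SLN := by
  intro P Q hQ G _ _ n N h
  obtain ⟨Y, _, f, hf, hker, hTop⟩ := h.top
  have hY : Finite Y := Finite.of_surjective f hf
  have hs : Group.IsSolvable (sol G) := (SOL G).1
  have hVn : ((sol G).map f).Normal := Subgroup.Normal.map (sol_normal G) f hf
  have hVs : Group.IsSolvable ((sol G).map f) :=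
    Group.isSolvable_of_surjective (f := f.subgroupMap (sol G)) (f.subgroupMap_surjective (sol G))
  have hbot : (sol G).map f = ⊥ := by
    by_contra hne
    obtain ⟨L, hL, hLV⟩ := exists_minN _ hVn hne
    obtain ⟨k, S, _, _, hS, ⟨φ⟩⟩ := hTop L hL
    have hLs : Group.IsSolvable L :=
      Group.isSolvable_of_isSolvable_injective (Subgroup.inclusion_injective hLV)
    have hPs : Group.IsSolvable (Fin k → S) :=
      Group.isSolvable_of_surjective (f := φ.toMonoidHom) φ.surjective
    have hnas := hQ S hS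
    have hk : k ≠ 0 := by
      rintro rfl
      apply hL.ne
      rw [Subgroup.eq_bot_iff_forall]
      intro x hx
      have h1 : φ ⟨x, hx⟩ = φ 1 := Subsingleton.elim _ _
      exact congrArg Subtype.val (φ.injective h1)
    have h0 : 0 < k := Nat.pos_of_ne_zero hk
    have hSs : Group.IsSolvable S :=
      Group.isSolvable_of_surjective (f := Pi.evalMonoidHom (fun _ : Fin k => S) ⟨0, h0⟩)
        (fun s => ⟨fun _ => s, rfl⟩)
    obtain ⟨a, b, hab⟩ := hnas.nab
    have := hnas.sim
    exact hab (IsSimpleGroup.comm_iff_isSolvable.2 hSs a b)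
  intro x hx
  rw [← hker x]
  have h1 : f x ∈ (sol G).map f := Subgroup.mem_map_of_mem f hx
  rw [hbot, Subgroup.mem_bot] at h1
  exact h1

end Pool.Agent.H36.FN
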